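import Pool.Agent.X223.KR.Final

/-!
Q1 of MP_2d6919_lc, positive answer: a complete Boolean algebra with a continuous outer measure,
all of whose countably generated complete subalgebras admit measures, admits a measure.

The continuous outer measure `m` is absolutely continuous with respect to a measure on every
countably generated complete subalgebra; hence it is uniformly exhaustive, because a failure of
uniform exhaustivity is witnessed by countably many elements. Then the method of Kalton and Roberts
gives a strictly positive finitely additive functional, and its countably additive part is still
strictly positive because `m` is continuous.
-/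

set_option autoImplicit false

namespace Pool.Agent.Results.MP_2d6919_lc.AdmitsMeasure

open Pool.Agent.X223.KR

universe u

theorem result (B : Type u) [CompleteBooleanAlgebra B]
    (hm : ∃ m : B → ℝ, IsContinuousOuterMeasure m)
    (hsub : ∀ C : Set B, IsCountablyGenerated C → ∃ μ : C → ℝ, IsMeasureOn C μ) :
    ∃ μ : ↥(Set.univ : Set B) → ℝ, IsMeasureOn Set.univ μ :=
  hm.elim fun _ h => main h hsub

end Pool.Agent.Results.MP_2d6919_lc.AdmitsMeasure
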